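import Pool.Agent.Helper38.SD.GoalsC
import Pool.Agent.Helper38.FD.Twist
import Pool.Agent.Helper17.SL.MainA

/-!
Packet SD-C_HALF: for `d = 2`, at most one complementary pair of CM types fails.
-/

set_option autoImplicit false

namespace Pool.Agent.Helper22.SD

open NumberField Module IsDedekindDomain TensorProduct
open Pool.Agent.Helper51.SigLeo Pool.Agent.Helper51.RP
open Pool.Agent.Helper38.SD
open Pool.Agent.Helper38.FD (Chr CutsOut LeopoldtFor IsOrdinary)

theorem c_half : Pool.Agent.Helper38.SD.C_HALF := by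
  intro p _ F₀ K _ _ _ _ _ _ _ hd hK ιinf ιp Lg κ hfin hN S₁ S₂ hS₁ hS₂ hne hne'
  have hac : Algebra.IsAlgebraic ℚ (AlgebraicClosure K) :=
    Algebra.IsAlgebraic.trans ℚ K (AlgebraicClosure K)
  obtain ⟨H, hH, hcut⟩ := hfin
  have hHg : IsGalois K H := Pool.Agent.Helper38.FD.isGalois_of_cutsOut hcut
  have hHn : NumberField H := by
    have h1 : CharZero H := charZero_of_injective_algebraMap (algebraMap K H).injective
    have h2 : FiniteDimensional ℚ H := FiniteDimensional.trans ℚ K H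
    exact ⟨⟩
  obtain ⟨χ, hinj, hχ⟩ := Pool.Agent.Helper38.FD.exists_faithful hcut
  have hCM : ¬ IsCMField H := hN H hcut
  rcases Pool.Agent.Helper17.SL.mainA hd hK hCM p ℂ_[p] ιinf ιp S₁ S₂ hS₁ hS₂ hne.symm hne' χ hinj
    Lg with h | h
  · exact Or.inl ⟨H, hH, hcut, χ, hχ, h⟩
  · exact Or.inr ⟨H, hH, hcut, χ, hχ, h⟩

end Pool.Agent.Helper22.SD
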